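import Mathlib
import Pool.Agent.Helper24.HK.Cfg

/-!
# Configurations with a curve of genus one (definitions)

The same local picture as in `Helper24.HK.Cfg` (roots `z q` of the linear coefficients over the point
`u`, form on the line in the factor `0` almost zero at `u`), but no line through a point of a starting
letter. Instead there is a line `M` through `u` in the factor `s.f.succ`, with the direction
`(0, 1, d)`, such that the double cover of `M` given by `Fh` has nodes at the points
`t (r.succ)`, `r : Fin m`, (with the double roots `w r.succ`) and a simple branch point at `t 0` (with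
the double root `w 0`). So the double cover is birational to `w ^ 2 = q` with `deg q ≤ 4`.

* `Un4`: the unknowns `u`, `z`, `d`, `t`, `w`. `Sel4`: the choices; `y : ℤ` is the second root of the
  form on the line in the factor `0` over `u` (the first one is `z j`).
* `rd`: the old unknowns; the letter `none` has the root `y`.
* `Eqn4`: the square system. Over the `p`-adic integers the right hand sides are `p ^ 2` for `Ah`, `p`
  for the last equation of `u`, and `0` for all other equations.
-/

set_option autoImplicit false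

namespace Pool.Agent.Helper16.N4

open MvPolynomial Pool.Agent.Helper64.HK Pool.Agent.Helper24.HK
open Pool.Agent.Helper28.HN (I aff)

/-- The unknowns. -/
inductive Un4 (k m : ℕ)
  /-- the coordinates of the point -/
  | u (q : Fin k × Fin (m + 1))
  /-- the roots of the linear coefficients -/
  | z (q : Fin k × Fin (m + 1))
  /-- the direction of the line (without the first two coordinates) -/
  | d (i : Fin m)
  /-- the branch points on the line -/
  | t (r : Fin (m + 1))
  /-- the double roots over the branch points -/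
  | w (r : Fin (m + 1))
deriving DecidableEq, Fintype

/-- The choices. -/
structure Sel4 (k m : ℕ) where
  /-- the free coordinates of `u` -/
  S : Fin 4 → Fin k × Fin (m + 1)
  hS : Function.Injective S
  /-- the factor of the line -/
  f : Fin k
  /-- the second root over `u` -/
  y : ℤ
  /-- the letter at which the special value is taken; the first letter of the cycle -/
  j : Fin k × Fin (m + 1)
  /-- the letter of the special direction; the second letter of the cycle -/
  m' : Fin k × Fin (m + 1)
  /-- the third letter of the cycle -/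
  l : Fin k × Fin (m + 1)
  hjm : j ≠ m'
  hml : m' ≠ l
  hlj : l ≠ j

/-- The factor of a letter. -/
def Sel4.ty {k m : ℕ} (s : Sel4 k m) : Lt k m → Fin k
  | none => s.f
  | some q => q.1

section config

variable {k m : ℕ} {a : Fin (k + 1) → Fin (m + 1)} {S : Type*} [CommRing S]

/-- The old unknowns. -/
def rd (s : Sel4 k m) (x : Un4 k m → S) : Un k m → S
  | .inl q => x (.u q)
  | .inr none => (s.y : S)
  | .inr (some q) => x (.z q)

/-- The affine coordinates of the direction of the line. -/
def dv (x : Un4 k m → S) : Fin (m + 1) → S :=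
  fun i => Fin.cases 1 (fun i => x (.d i)) i

/-- The direction of the line. -/
def dr (x : Un4 k m → S) : I m → S := Fin.cons 0 (dv x)

/-- The point with the parameter `t` on the line. -/
def pl (s : Sel4 k m) (x : Un4 k m → S) (t : S) : Fin (k + 1) → I m → S :=
  ct fun q => x (.u q) + if q.1 = s.f then t * dv x q.2 else 0

/-- The direction of a letter. -/
noncomputable def xq (c : Ix a → S) (s : Sel4 k m) (x : Un4 k m → S) (q : Fin k × Fin (m + 1)) :
    I m → S := xh c q.1.succ (Xz c (pt (rd s x)) (x (.z q)))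

/-- The square system. -/
noncomputable def Eqn4 (c : Ix a → S) (s : Sel4 k m) (x : Un4 k m → S) : Un4 k m → S
  | .u e =>
    if e = s.S 0 then Ah c (pt (rd s x)) else
    if e = s.S 1 then Fh c (pt (rd s x)) (s.y : S) else
    if e = s.S 2 then Fh c (pt (rd s x)) (x (.z s.j)) else
    if e = s.S 3 then qh c s.m'.1.succ (pt (rd s x)) (xq c s x s.m') (x (.z s.j)) else
    x (.u e)
  | .z q => psh c q.1.succ (pt (rd s x)) (x (.z q))
  | .d i => qh c s.f.succ (pl s x (x (.t i.succ))) (dr x) (x (.w i.succ))
  | .t r => Ah c (pl s x (x (.t r))) * x (.w r) + Bh c (pl s x (x (.t r)))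
  | .w r => Bh c (pl s x (x (.t r))) * x (.w r) + Ch c (pl s x (x (.t r)))

/-- The product of the quantities which must not vanish: the part over `u`. -/
noncomputable def Pa4 (c : Ix a → S) (s : Sel4 k m) (x : Un4 k m → S) : S :=
  (Mx c (pt (rd s x))).det *
  (∏ b : Lt k m, ∏ b' : Lt k m, if b = b' then 1 else rd s x (.inr b) - rd s x (.inr b')) *
  (∏ q : Fin k × Fin (m + 1), (Nx c q.1.succ (Xz c (pt (rd s x)) (x (.z q)))).det) *
  (∏ q : Fin k × Fin (m + 1), kah c q.1.succ (pt (rd s x)) (x (.z q))) *
  (∏ q : Fin k × Fin (m + 1), th c q.1.succ (pt (rd s x)) (x (.z q))) *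
  (∏ q : Fin k × Fin (m + 1), (psP c q.1.succ (pt (rd s x))).derivative.eval (x (.z q))) *
  (∏ q : Fin k × Fin (m + 1), ∏ b : Lt k m, if b = some q ∨ (q = s.m' ∧ b = some s.j) then 1 else
    qh c q.1.succ (pt (rd s x)) (xq c s x q) (rd s x (.inr b))) *
  (∏ l : Fin k, (Vm c (rd s x) l).det) *
  qh c s.f.succ (pt (rd s x)) (dr x) (x (.z s.j))

/-- The product of the quantities which must not vanish: the part on the line. -/
noncomputable def Pb4 (c : Ix a → S) (s : Sel4 k m) (x : Un4 k m → S) : S :=
  (∏ r : Fin (m + 1), (Mx c (pl s x (x (.t r)))).det) *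
  (∏ r : Fin (m + 1), ∏ r' : Fin (m + 1), if r = r' then 1 else x (.t r) - x (.t r')) *
  (∏ r : Fin (m + 1), x (.t r)) *
  Ah c (pl s x (x (.t 0))) *
  qh c s.f.succ (pl s x (x (.t 0))) (dr x) (x (.w 0))

/-- The product of the quantities which must not vanish. -/
noncomputable def Pp4 (c : Ix a → S) (s : Sel4 k m) (x : Un4 k m → S) : S :=
  Pa4 c s x * Pb4 c s x

/-- The system as polynomials in the unknowns. -/
noncomputable def Gs4 (c : Ix a → S) (s : Sel4 k m) (i : Un4 k m) : MvPolynomial (Un4 k m) S :=
  Eqn4 (fun e => C (c e)) s X i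

/-- The equations and inequalities on the line `M` which are used for the curve. -/
structure Nod (c : Ix a → S) (s : Sel4 k m) (x : Un4 k m → S) : Prop where
  e1 : ∀ r, Ah c (pl s x (x (.t r))) * x (.w r) + Bh c (pl s x (x (.t r))) = 0
  e2 : ∀ r, Bh c (pl s x (x (.t r))) * x (.w r) + Ch c (pl s x (x (.t r))) = 0
  e3 : ∀ i : Fin m, qh c s.f.succ (pl s x (x (.t i.succ))) (dr x) (x (.w i.succ)) = 0
  hD : ∀ r, (Mx c (pl s x (x (.t r)))).det ≠ 0
  ht : ∀ r r', r ≠ r' → x (.t r) ≠ x (.t r')
  h0 : ∀ r, x (.t r) ≠ 0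
  hA : Ah c (pl s x (x (.t 0))) ≠ 0
  hq : qh c s.f.succ (pl s x (x (.t 0))) (dr x) (x (.w 0)) ≠ 0

end config

/-- A configuration near a flop curve: small right hand sides. -/
structure Cfg4 {p : ℕ} [Fact p.Prime] {k m : ℕ} {a : Fin (k + 1) → Fin (m + 1)} (c : Ix a → ℤ_[p])
    (s : Sel4 k m) (x : Un4 k m → ℤ_[p]) : Prop where
  psi : ∀ q, psh c q.1.succ (pt (rd s x)) (x (.z q)) = 0
  hA : ‖Ah c (pt (rd s x))‖ = (p : ℝ) ^ (-2 : ℤ)
  Fy : Fh c (pt (rd s x)) (s.y : ℤ_[p]) = 0
  Fj : Fh c (pt (rd s x)) (x (.z s.j)) = 0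
  hq : ‖qh c s.m'.1.succ (pt (rd s x)) (xq c s x s.m') (x (.z s.j))‖ = (p : ℝ) ^ (-1 : ℤ)
  e1 : ∀ r, Ah c (pl s x (x (.t r))) * x (.w r) + Bh c (pl s x (x (.t r))) = 0
  e2 : ∀ r, Bh c (pl s x (x (.t r))) * x (.w r) + Ch c (pl s x (x (.t r))) = 0
  e3 : ∀ i : Fin m, qh c s.f.succ (pl s x (x (.t i.succ))) (dr x) (x (.w i.succ)) = 0
  hPa : IsUnit (Pa4 c s x)
  hPb : IsUnit (Pb4 c s x)

/-- The reference configuration which belongs to a configuration. -/
structure IsRef4 {p : ℕ} [Fact p.Prime] {k m : ℕ}
    {L : Pool.Agent.Helper24.HM.LocM p (k * (m + 1)) (Fin k)} (s : Sel4 k m) (x : Un4 k m → ℤ_[p])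
    (R : Pool.Agent.Helper24.HM.RefM L (Lt k m)) : Prop where
  u0 : R.u0 = tr' fun q => x (.u q)
  z : R.z = fun b => rd s x (.inr b)
  ty : R.ty = s.ty
  y : R.y = none
  j : R.j = some s.j
  m : R.m = some s.m'
  l : R.l = some s.l

end Pool.Agent.Helper16.N4
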