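import Mathlib
import Pool.Agent.Helper16.N4.Cfg

/-!
# The curve over the line `M` and the statements `ExC`, `NP` (definitions)
-/

set_option autoImplicit false

namespace Pool.Agent.Helper16.N4

open Pool.Agent.Helper64.HK Pool.Agent.Helper24.HK
open Pool.Agent.Helper28.HN (I aff)

section defs

variable {k m : ℕ} {a : Fin (k + 1) → Fin (m + 1)}

/-- The line `M` with polynomial coordinates. -/
noncomputable def pP {S : Type*} [CommRing S] (s : Sel4 k m) (x : Un4 k m → S) :
    Fin (k + 1) → I m → Polynomial S :=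
  pl s (fun i => Polynomial.C (x i)) Polynomial.X

/-- A quarter of the discriminant of `Fh` along the line `M`. -/
noncomputable def dP {S : Type*} [CommRing S] (c : Ix a → S) (s : Sel4 k m) (x : Un4 k m → S) :
    Polynomial S :=
  Bh (fun e => Polynomial.C (c e)) (pP s x) ^ 2 -
    Ah (fun e => Polynomial.C (c e)) (pP s x) * Ch (fun e => Polynomial.C (c e)) (pP s x)

/-- The determinant of `Mx` along the line `M`. -/
noncomputable def mP {S : Type*} [CommRing S] (c : Ix a → S) (s : Sel4 k m) (x : Un4 k m → S) :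
    Polynomial S :=
  (Mx (fun e => Polynomial.C (c e)) (pP s x)).det

/-- The factor of the nodes. -/
noncomputable def sP {S : Type*} [CommRing S] (c : Ix a → S) (s : Sel4 k m) (x : Un4 k m → S) :
    Polynomial S :=
  mP c s x * ∏ i : Fin m, (Polynomial.X - Polynomial.C (x (.t i.succ)))

/-- The curve `w ^ 2 = q` has infinitely many points over `K`. -/
def Crv {E : Type*} [Field E] (K : Set E) (c : Ix a → E) (s : Sel4 k m) (x : Un4 k m → E) : Prop :=
  ∃ q : Polynomial E, dP c s x = sP c s x ^ 2 * q ∧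
    {t : E | t ∈ K ∧ ∃ w ∈ K, w ≠ 0 ∧ w ^ 2 = q.eval t}.Infinite

/-- Configurations exist for general coefficients. -/
def ExC (a : Fin (k + 1) → Fin (m + 1)) : Prop :=
  ∃ s : Sel4 k m, ∃ Δ : MvPolynomial (Ix a) ℚ, Δ ≠ 0 ∧
    ∀ (K : Type) [Field K] [NumberField K] (c : Ix a → K), MvPolynomial.aeval c Δ ≠ 0 →
      ∃ (L : Type) (_ : Field L) (_ : NumberField L) (_ : Algebra K L) (x : Un4 k m → L),
        (∀ i, Eqn4 (fun e => algebraMap K L (c e)) s x i = 0) ∧
        Pp4 (fun e => algebraMap K L (c e)) s x ≠ 0 ∧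
        (Matrix.of fun i j => MvPolynomial.eval x
          (MvPolynomial.pderiv j (Gs4 (fun e => algebraMap K L (c e)) s i))).det ≠ 0

/-- `NoPair` holds for general coefficients, after a finite extension. -/
def NP (a : Fin (k + 1) → Fin (m + 1)) : Prop :=
  ∃ Δ : MvPolynomial (Ix a) ℚ, Δ ≠ 0 ∧
    ∀ (K : Type) [Field K] [NumberField K] (c : Ix a → K), MvPolynomial.aeval c Δ ≠ 0 →
      ∃ (L : Type) (_ : Field L) (_ : NumberField L) (_ : Algebra K L),
        NoPair (fun e => algebraMap K L (c e))

end defs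

end Pool.Agent.Helper16.N4
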