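import Mathlib
import Pool.Agent.Helper64.HK.Lin
import Pool.Agent.Helper77.HK.Chart

/-!
# Permutation of the forms: the coefficients of the quadratic equation do not change
-/

set_option autoImplicit false

namespace Pool.Agent.Helper16.N4

open MvPolynomial Pool.Agent.Helper64.HK Pool.Agent.Helper77.HK
open Pool.Agent.Helper28.HN (I aff)

section perm

variable {k m : ℕ} (a : Fin (k + 1) → Fin (m + 1)) (σ : Equiv.Perm (Fin (m + 1)))

/-- The factors in which the form `i` has degree two. -/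
def eqj (i : Fin (m + 1)) : {j // a j = i} ≃ {j // (fun j => σ (a j)) j = σ i} :=
  Equiv.subtypeEquivRight fun j => by
    show a j = i ↔ σ (a j) = σ i
    exact σ.injective.eq_iff.symm

/-- The coefficients of the permuted forms. -/
def eqx : Ix a ≃ Ix (fun j => σ (a j)) :=
  Equiv.sigmaCongr σ fun i =>
    Equiv.prodCongr (Equiv.refl _) (Equiv.arrowCongr (eqj a σ i) (Equiv.refl _))

/-- The permutation of the rows. -/
def tau : Equiv.Perm (Fin m) :=
  ((finSuccAboveEquiv (a 0)).trans (σ.subtypeEquiv fun x => by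
    show x ≠ a 0 ↔ σ x ≠ σ (a 0)
    exact (σ.injective.ne_iff).symm)).trans (finSuccAboveEquiv (σ (a 0))).symm

theorem tau_spec (r : Fin m) : (σ (a 0)).succAbove (tau a σ r) = σ ((a 0).succAbove r) := by
  have h : (finSuccAboveEquiv (σ (a 0))) (tau a σ r) =
      ⟨σ ((a 0).succAbove r), fun h => Fin.succAbove_ne (a 0) r (σ.injective h)⟩ := by
    rw [tau, Equiv.trans_apply, Equiv.apply_symm_apply]
    rfl
  have h2 := congrArg Subtype.val h
  rw [finSuccAboveEquiv_apply] at h2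
  exact h2

variable {a σ} {S : Type*} [CommRing S]

/-- The permuted coefficients. -/
def pc (σ : Equiv.Perm (Fin (m + 1))) (c : Ix a → S) : Ix (fun j => σ (a j)) → S :=
  fun e => c ((eqx a σ).symm e)

theorem Mf_pc (c : Ix a → S) (i : Fin (m + 1)) (U V : Fin (k + 1) → I m → S) :
    Mf (pc σ c) (σ i) U V = Mf c i U V := by
  unfold Mf
  refine Finset.sum_congr rfl fun p _ => ?_
  rw [← (Equiv.arrowCongr (eqj a σ i) (Equiv.refl (I m))).sum_comp]
  refine Finset.sum_congr rfl fun q _ => ?_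
  have h1 : (eqx a σ).symm ⟨σ i, p, (Equiv.arrowCongr (eqj a σ i) (Equiv.refl (I m))) q⟩ =
      ⟨i, p, q⟩ := by
    rw [Equiv.symm_apply_eq]
    rfl
  unfold pc
  rw [h1]
  congr 1
  rw [← (eqj a σ i).prod_comp]
  refine Finset.prod_congr rfl fun j _ => ?_
  rw [Equiv.arrowCongr_apply]
  simp [eqj]

theorem Pf_pc (c : Ix a → S) (j : Fin (k + 1)) (X : Fin (k + 1) → I m → S) (v w : I m → S) :
    Pf (pc σ c) j X v w = Pf c j X v w := by
  show Mf (pc σ c) (σ (a j)) _ _ + Mf (pc σ c) (σ (a j)) _ _ = _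
  rw [Mf_pc, Mf_pc]
  rfl

theorem rf_pc (c : Ix a → S) (X : Fin (k + 1) → I m → S) (r : Fin m) (v : I m → S) :
    rf (pc σ c) 0 X (tau a σ r) v = rf c 0 X r v := by
  show Mf (pc σ c) ((σ (a 0)).succAbove (tau a σ r)) _ _ = _
  rw [tau_spec, Mf_pc]
  rfl

theorem rf_pc' (c : Ix a → S) (X : Fin (k + 1) → I m → S) (v : I m → S) :
    (fun r => rf (pc σ c) 0 X r v) = fun r => rf c 0 X ((tau a σ).symm r) v := by
  funext r
  obtain ⟨r, rfl⟩ := (tau a σ).surjective r
  rw [rf_pc, Equiv.symm_apply_apply]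

theorem Mx_pc (c : Ix a → S) (X : Fin (k + 1) → I m → S) :
    Mx (pc σ c) X = (Mx c X).submatrix (tau a σ).symm id := by
  ext r b
  exact congrFun (rf_pc' c X (Pi.single b.succ.succ 1)) r

/-- The sign. -/
def sg' (a : Fin (k + 1) → Fin (m + 1)) (σ : Equiv.Perm (Fin (m + 1))) (S : Type*) [CommRing S] : S :=
  ((Equiv.Perm.sign (tau a σ).symm : ℤ) : S)

theorem sg'_sq : sg' a σ S * sg' a σ S = 1 := by
  unfold sg'
  rw [← Int.cast_mul, Int.units_coe_mul_self, Int.cast_one]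

theorem det_pc (c : Ix a → S) (X : Fin (k + 1) → I m → S) :
    (Mx (pc σ c) X).det = sg' a σ S * (Mx c X).det := by
  rw [Mx_pc, Matrix.det_permute]
  rfl

theorem adj_pc (c : Ix a → S) (X : Fin (k + 1) → I m → S) (v : I m → S) :
    (Mx (pc σ c) X).adjugate.mulVec (fun r => rf (pc σ c) 0 X r v) =
      sg' a σ S • (Mx c X).adjugate.mulVec fun r => rf c 0 X r v := by
  rw [← Matrix.cramer_eq_adjugate_mulVec, ← Matrix.cramer_eq_adjugate_mulVec, rf_pc', Mx_pc]
  funext i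
  rw [Pi.smul_apply, Matrix.cramer_apply, Matrix.cramer_apply, smul_eq_mul]
  have h : ((Mx c X).submatrix (tau a σ).symm id).updateCol i
      (fun r => rf c 0 X ((tau a σ).symm r) v) =
      ((Mx c X).updateCol i fun r => rf c 0 X r v).submatrix (tau a σ).symm id := by
    ext r b
    simp only [Matrix.updateCol_apply, Matrix.submatrix_apply, id]
  rw [h, Matrix.det_permute]
  rfl

theorem Y0_pc (c : Ix a → S) (X : Fin (k + 1) → I m → S) :
    Y0 (pc σ c) X = sg' a σ S • Y0 c X := by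
  unfold Y0
  rw [adj_pc, det_pc]
  funext i
  refine Fin.cases ?_ (fun i => ?_) i
  · rfl
  · refine Fin.cases ?_ (fun i => ?_) i
    · simp
    · simp

theorem Y1_pc (c : Ix a → S) (X : Fin (k + 1) → I m → S) :
    Y1 (pc σ c) X = sg' a σ S • Y1 c X := by
  unfold Y1
  rw [adj_pc, det_pc]
  funext i
  refine Fin.cases ?_ (fun i => ?_) i
  · simp
  · refine Fin.cases ?_ (fun i => ?_) i
    · simp
    · simp

theorem Pf_sm (c : Ix a → S) (X : Fin (k + 1) → I m → S) (v w : I m → S) :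
    Pf (pc σ c) 0 X (sg' a σ S • v) (sg' a σ S • w) = Pf c 0 X v w := by
  rw [Pf_pc]
  have h := Pf_smul_l c 0 X (sg' a σ S) v (sg' a σ S • w)
  have h2 := Pf_smul_r c 0 X (sg' a σ S) v w
  have e1 : (sg' a σ S • v : I m → S) = fun l => sg' a σ S * v l := rfl
  have e2 : (sg' a σ S • w : I m → S) = fun l => sg' a σ S * w l := rfl
  rw [e2] at h
  rw [e1, e2, h, h2, ← mul_assoc, sg'_sq, one_mul]

theorem Ah_pc (c : Ix a → S) (X : Fin (k + 1) → I m → S) : Ah (pc σ c) X = Ah c X := by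
  unfold Ah
  rw [Y1_pc, Pf_sm]

theorem Bh_pc (c : Ix a → S) (X : Fin (k + 1) → I m → S) : Bh (pc σ c) X = Bh c X := by
  unfold Bh
  rw [Y0_pc, Y1_pc, Pf_sm]

theorem Ch_pc (c : Ix a → S) (X : Fin (k + 1) → I m → S) : Ch (pc σ c) X = Ch c X := by
  unfold Ch
  rw [Y0_pc, Pf_sm]

omit [CommRing S] in
theorem map_pc {T : Type*} (f : S → T) (c : Ix a → S) :
    (fun e => f (pc σ c e)) = pc σ fun e => f (c e) := rfl

theorem ns_pc {c : Ix a → S} (h : NS (pc σ c)) : NS c := by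
  intro r0 r1 h0
  refine h r0 r1 ?_
  unfold Ap Bp Cp at h0 ⊢
  rw [map_pc (f := fun x => C x), Ah_pc, Bh_pc, Ch_pc]
  exact h0

theorem Dp_pc {c : Ix a → S} (h : Dp (pc σ c) ≠ 0) : Dp c ≠ 0 := by
  intro h0
  refine h ?_
  unfold Dp at h0 ⊢
  rw [map_pc (f := fun x => C x), det_pc, h0, mul_zero]

/-- If the equation over the chart has no rational root for general `c` of the type `σ ∘ a`, then
also for the type `a`. -/
theorem ns_perm {a : Fin (k + 1) → Fin (m + 1)} (σ : Equiv.Perm (Fin (m + 1)))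
    (h : ∃ Δ : MvPolynomial (Ix fun j => σ (a j)) ℚ, Δ ≠ 0 ∧
      ∀ (K : Type) [Field K] [NumberField K] (c : Ix (fun j => σ (a j)) → K), aeval c Δ ≠ 0 →
        NS c ∧ Dp c ≠ 0) :
    ∃ Δ : MvPolynomial (Ix a) ℚ, Δ ≠ 0 ∧
      ∀ (K : Type) [Field K] [NumberField K] (c : Ix a → K), aeval c Δ ≠ 0 →
        NS c ∧ Dp c ≠ 0 := by
  obtain ⟨Δ, hΔ, H⟩ := h
  refine ⟨rename (eqx a σ).symm Δ, ?_, fun K _ _ c hc => ?_⟩
  · intro h0
    exact hΔ (rename_injective _ (eqx a σ).symm.injective (by rw [h0, map_zero]))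
  · rw [aeval_rename] at hc
    obtain ⟨h1, h2⟩ := H K (pc σ c) hc
    exact ⟨ns_pc h1, Dp_pc h2⟩

end perm

end Pool.Agent.Helper16.N4
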