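import Mathlib
import Pool.Agent.Helper16.N4.Crv
import Pool.Agent.Helper16.N4.NSPerm
import Pool.Agent.Helper77.HK.NSCfg

/-!
# The equation over the chart has no rational root, from configurations with a curve
-/

set_option autoImplicit false

namespace Pool.Agent.Helper16.N4

open MvPolynomial Pool.Agent.Helper64.HK Pool.Agent.Helper77.HK Pool.Agent.Helper24.HK
open Pool.Agent.Helper28.HN (I aff)

section

variable {k m : ℕ} {a : Fin (k + 1) → Fin (m + 1)}

section eqn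

variable {S : Type*} [CommRing S] (c : Ix a → S) (s : Sel4 k m) (x : Un4 k m → S)

theorem pt_rd : pt (rd s x) = ct fun q => x (.u q) := rfl

theorem Eqn4_S0 : Eqn4 c s x (.u (s.S 0)) = Ah c (pt (rd s x)) := by
  simp only [Eqn4, if_true]

theorem Eqn4_S1 : Eqn4 c s x (.u (s.S 1)) = Fh c (pt (rd s x)) (s.y : S) := by
  have h : s.S 1 ≠ s.S 0 := fun h => absurd (s.hS h) (by decide)
  simp only [Eqn4, if_neg h, if_true]

theorem Eqn4_S2 : Eqn4 c s x (.u (s.S 2)) = Fh c (pt (rd s x)) (x (.z s.j)) := by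
  have h0 : s.S 2 ≠ s.S 0 := fun h => absurd (s.hS h) (by decide)
  have h1 : s.S 2 ≠ s.S 1 := fun h => absurd (s.hS h) (by decide)
  simp only [Eqn4, if_neg h0, if_neg h1, if_true]

theorem Eqn4_S3 : Eqn4 c s x (.u (s.S 3)) =
    qh c s.m'.1.succ (pt (rd s x)) (xq c s x s.m') (x (.z s.j)) := by
  have h0 : s.S 3 ≠ s.S 0 := fun h => absurd (s.hS h) (by decide)
  have h1 : s.S 3 ≠ s.S 1 := fun h => absurd (s.hS h) (by decide)
  have h2 : s.S 3 ≠ s.S 2 := fun h => absurd (s.hS h) (by decide)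
  simp only [Eqn4, if_neg h0, if_neg h1, if_neg h2, if_true]

end eqn

theorem good_of_cfg4 {L : Type*} [Field L] [CharZero L] (c : Ix a → L) (s : Sel4 k m)
    (x : Un4 k m → L) (hE : ∀ i, Eqn4 c s x i = 0) (hP : Pp4 c s x ≠ 0) :
    Good c (fun q => x (.u q)) ![s.m'.1, s.j.1, s.l.1]
      ![x (.z s.m'), x (.z s.j), x (.z s.l)] := by
  unfold Pp4 Pa4 at hP
  obtain ⟨hP, -⟩ := mul_ne_zero_iff.1 hP
  obtain ⟨hP, -⟩ := mul_ne_zero_iff.1 hP
  obtain ⟨hP, -⟩ := mul_ne_zero_iff.1 hP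
  obtain ⟨hP, hq⟩ := mul_ne_zero_iff.1 hP
  obtain ⟨hP, -⟩ := mul_ne_zero_iff.1 hP
  obtain ⟨hP, -⟩ := mul_ne_zero_iff.1 hP
  obtain ⟨hP, -⟩ := mul_ne_zero_iff.1 hP
  obtain ⟨hP, -⟩ := mul_ne_zero_iff.1 hP
  obtain ⟨hD, hz⟩ := mul_ne_zero_iff.1 hP
  rw [Finset.prod_ne_zero_iff] at hz hq
  have hz' : ∀ b b' : Lt k m, b ≠ b' → rd s x (.inr b) - rd s x (.inr b') ≠ 0 := by
    intro b b' hb
    have := (Finset.prod_ne_zero_iff.1 (hz b (Finset.mem_univ b))) b' (Finset.mem_univ b')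
    rwa [if_neg hb] at this
  have hq' : ∀ q q' : Fin k × Fin (m + 1), q ≠ q' → ¬ (q = s.m' ∧ q' = s.j) →
      qh c q.1.succ (pt (rd s x)) (xq c s x q) (x (.z q')) ≠ 0 := by
    intro q q' hb hb'
    have := (Finset.prod_ne_zero_iff.1 (hq q (Finset.mem_univ q))) (some q') (Finset.mem_univ _)
    rw [if_neg ?_] at this
    · exact this
    · rintro (h | ⟨h, h'⟩)
      · exact hb (Option.some.inj h).symm
      · exact hb' ⟨h, Option.some.inj h'⟩
  have hd : ∀ q : Fin k × Fin (m + 1),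
      qh c q.1.succ (pt (rd s x)) (xq c s x q) (x (.z q)) = 0 := by
    intro q
    have h : psh c q.1.succ (pt (rd s x)) (x (.z q)) = 0 := hE (.z q)
    unfold xq
    rw [qh_psh', h, mul_zero]
  have nmj : s.m' ≠ s.j := s.hjm.symm
  have nml : s.m' ≠ s.l := s.hml
  have nlj : s.l ≠ s.j := s.hlj
  have hA : Ah c (pt (rd s x)) = 0 := by rw [← Eqn4_S0]; exact hE _
  have hy : Fh c (pt (rd s x)) (s.y : L) = 0 := by rw [← Eqn4_S1 c s x]; exact hE _
  have hj : Fh c (pt (rd s x)) (x (.z s.j)) = 0 := by rw [← Eqn4_S2 c s x]; exact hE _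
  have hyj : (s.y : L) - x (.z s.j) ≠ 0 := hz' none (some s.j) (by simp)
  have hB : Bh c (pt (rd s x)) = 0 := by
    rw [Helper64.HK.Fh_eq, hA] at hy hj
    have h2 : 2 * ((s.y : L) - x (.z s.j)) * Bh c (pt (rd s x)) = 0 := by
      linear_combination hy - hj
    rcases mul_eq_zero.1 h2 with h3 | h3
    · rcases mul_eq_zero.1 h3 with h4 | h4
      · exact absurd h4 two_ne_zero
      · exact absurd h4 hyj
    · exact h3
  have hC : Ch c (pt (rd s x)) = 0 := by
    rw [Helper64.HK.Fh_eq, hA, hB] at hy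
    linear_combination hy
  refine ⟨hD, hA, hB, hC, ?_, hd s.m', hd s.j, hd s.l, ?_,
    hq' s.m' s.l nml fun h => nlj h.2,
    hq' s.j s.m' nmj.symm fun h => nmj h.1.symm,
    hq' s.l s.j nlj fun h => nml h.1.symm⟩
  · intro a b hab
    have hs : ∀ q q' : Fin k × Fin (m + 1), q ≠ q' → x (.z q) - x (.z q') ≠ 0 :=
      fun q q' h => hz' (some q) (some q') fun h' => h (Option.some.inj h')
    fin_cases a <;> fin_cases b <;> first | exact absurd rfl hab | skip
    · exact hs _ _ nmj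
    · exact hs _ _ nml
    · exact hs _ _ nmj.symm
    · exact hs _ _ nlj.symm
    · exact hs _ _ nml.symm
    · exact hs _ _ nlj
  · have := Eqn4_S3 c s x
    rw [hE] at this
    exact this.symm

/-- For general `c` the equation over the chart has no rational root. -/
theorem ns_of_exc (h : ExC a) : ∃ Δ : MvPolynomial (Ix a) ℚ, Δ ≠ 0 ∧
    ∀ (K : Type) [Field K] [NumberField K] (c : Ix a → K), aeval c Δ ≠ 0 →
      NS c ∧ Dp c ≠ 0 := by
  obtain ⟨s, Δ, hΔ, h⟩ := h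
  refine ⟨Δ, hΔ, fun K _ _ c hc => ?_⟩
  obtain ⟨L, _, _, _, x, hE, hP, -⟩ := h K c hc
  have g := good_of_cfg4 _ s x hE hP
  exact ⟨ns_of_map (algebraMap K L) c (ns_of_good g), Dp_ne_of_map (algebraMap K L) c _ g.hD⟩

end

/-- All types, from the two examples. -/
theorem ns4 (h1 : ExC (![0, 0] : Fin (1 + 1) → Fin (3 + 1)))
    (h2 : ExC (![0, 1] : Fin (1 + 1) → Fin (3 + 1))) (a : Fin (1 + 1) → Fin (3 + 1)) :
    ∃ Δ : MvPolynomial (Ix a) ℚ, Δ ≠ 0 ∧
      ∀ (K : Type) [Field K] [NumberField K] (c : Ix a → K), aeval c Δ ≠ 0 →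
        NS c ∧ Dp c ≠ 0 := by
  by_cases h : a 0 = a 1
  · refine ns_perm (Equiv.swap (a 0) 0) ?_
    have : (fun j => (Equiv.swap (a 0) 0) (a j)) = ![0, 0] := by
      funext j
      fin_cases j
      · simp
      · simp [← h]
    rw [this]
    exact ns_of_exc h1
  · obtain ⟨σ, hσ⟩ : ∃ σ : Equiv.Perm (Fin (3 + 1)), σ (a 0) = 0 ∧ σ (a 1) = 1 := by
      generalize a 0 = x at *
      generalize a 1 = y at *
      revert x y
      decide
    refine ns_perm σ ?_
    have : (fun j => σ (a j)) = ![0, 1] := by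
      funext j
      fin_cases j
      · exact hσ.1
      · exact hσ.2
    rw [this]
    exact ns_of_exc h2

end Pool.Agent.Helper16.N4
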