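import Mathlib
import Pool.Agent.Helper16.N4.NS
import Pool.Agent.Helper28.N4.NoPair4
import Pool.Agent.Helper92.HK.Full

/-!
# The final theorem for `n = 4` and two factors, from the two examples
-/

set_option autoImplicit false

namespace Pool.Agent.Helper16.N4

open MvPolynomial Pool.Agent.Helper64.HK Pool.Agent.Helper92

theorem final4_of (h1 : ExC (![0, 0] : Fin (1 + 1) → Fin (3 + 1)))
    (h2 : ExC (![0, 1] : Fin (1 + 1) → Fin (3 + 1))) (a : Fin (1 + 1) → Fin (3 + 1)) :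
    ∃ Δ : MvPolynomial (Ix a) ℚ, Δ ≠ 0 ∧ ∀ (K : Type) [Field K] [NumberField K]
      (c : Ix a → K), aeval c Δ ≠ 0 → CI.Good K (CI.natI c) (1 * (3 + 1)) :=
  HK.full_of a (ns4 h1 h2) (Pool.Agent.Helper28.N4.nopair4_of_exc h1 h2 a)
    (Pool.Agent.Helper47.HK.ni (by norm_num) a)

end Pool.Agent.Helper16.N4
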