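import Mathlib
import Pool.Agent.Helper16.N4.Final
import Pool.Agent.Helper76.N4.Exc1
import Pool.Agent.Helper76.N4.Exc2

/-!
# The final theorem for `n = 4` and two factors
-/

set_option autoImplicit false

namespace Pool.Agent.Helper16.N4

open MvPolynomial Pool.Agent.Helper64.HK Pool.Agent.Helper92

/-- `NoPair` for general coefficients, after a finite extension, for `n = 4` and two factors. -/
theorem nopair4 (a : Fin (1 + 1) → Fin (3 + 1)) : NP a :=
  Pool.Agent.Helper28.N4.nopair4_of_exc Pool.Agent.Helper76.N4.exc1 Pool.Agent.Helper76.N4.exc2 a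

/-- All two-factor types with `n = 4`. -/
theorem final4 (a : Fin (1 + 1) → Fin (3 + 1)) :
    ∃ Δ : MvPolynomial (Ix a) ℚ, Δ ≠ 0 ∧ ∀ (K : Type) [Field K] [NumberField K]
      (c : Ix a → K), aeval c Δ ≠ 0 → CI.Good K (CI.natI c) (1 * (3 + 1)) :=
  final4_of Pool.Agent.Helper76.N4.exc1 Pool.Agent.Helper76.N4.exc2 a

/-- The equation over the chart has no rational root, for general coefficients. -/
theorem exists_ns4 (a : Fin (1 + 1) → Fin (3 + 1)) :
    ∃ Δ : MvPolynomial (Ix a) ℚ, Δ ≠ 0 ∧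
      ∀ (K : Type) [Field K] [NumberField K] (c : Ix a → K), aeval c Δ ≠ 0 →
        Pool.Agent.Helper77.HK.NS c ∧ Pool.Agent.Helper77.HK.Dp c ≠ 0 :=
  ns4 Pool.Agent.Helper76.N4.exc1 Pool.Agent.Helper76.N4.exc2 a

end Pool.Agent.Helper16.N4
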