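import Mathlib
import Pool.Agent.Helper16.N4.Crv

/-!
# Project N4: the pieces (frames with sorry; proofs go to other files, in the namespace of the typist)
-/

set_option autoImplicit false

namespace Pool.Agent.Helper16.N4

open Pool.Agent.Helper64.HK Pool.Agent.Helper24.HK
open Pool.Agent.Helper28.HN (I aff)


namespace Pieces

open Pool.Agent.Helper24.HM

/-! ## NAT4: naturality of the system (helper45) -/

section nat

variable {k m : ℕ} {a : Fin (k + 1) → Fin (m + 1)} {S S' : Type*} [CommRing S] [CommRing S']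
  (f : S →+* S') (c : Ix a → S) (s : Sel4 k m) (x : Un4 k m → S)

theorem map_Eqn4 (i : Un4 k m) :
    f (Eqn4 c s x i) = Eqn4 (fun e => f (c e)) s (fun b => f (x b)) i := by
  sorry
theorem map_Pa4 : f (Pa4 c s x) = Pa4 (fun e => f (c e)) s (fun b => f (x b)) := by sorry
theorem map_Pb4 : f (Pb4 c s x) = Pb4 (fun e => f (c e)) s (fun b => f (x b)) := by sorry

end nat

/-! ## GRAM: the square of the determinant divides the discriminant -/

/-- Over a domain with `D = det Mx ≠ 0`: the `2 × 2` minors of `(Y0, Y1)` are `D` times the minors of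
the matrix of the linear forms, and `2 (Bh ^ 2 - Ah Ch) = - ∑ S_ij S_kl m_ik m_jl`. The quotient has
degree `2 (deg S + sum of the degrees of the linear forms) = 2 m + 4` in the factor `s.f.succ`. -/
theorem gram {k m : ℕ} {a : Fin (k + 1) → Fin (m + 1)} {E : Type*} [Field E] [CharZero E]
    (c : Ix a → E) (s : Sel4 k m) (x : Un4 k m → E) (hD : mP c s x ≠ 0) :
    ∃ g : Polynomial E, dP c s x = mP c s x ^ 2 * g ∧ g.natDegree ≤ 2 * m + 4 := by sorry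

/-! ## NODES: the curve -/

/-- `dP` has double roots at the nodes and a simple root at `t 0`
(`D * (dP)' = - Ah * (qh + ..)` at a branch point, by `diff_F`). -/
theorem nodes {k m : ℕ} {a : Fin (k + 1) → Fin (m + 1)} {E : Type*} [Field E] [CharZero E]
    (c : Ix a → E) (s : Sel4 k m) (x : Un4 k m → E) (h : Nod c s x) :
    ∃ q : Polynomial E, dP c s x = sP c s x ^ 2 * q ∧ q.natDegree ≤ 4 ∧ q.eval (x (.t 0)) = 0 ∧
      q.derivative.eval (x (.t 0)) ≠ 0 := by sorry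

/-! ## QI: infinitely many points after a quadratic extension -/

/-- From the uniform version of `Helper15.quartic_infinite`: `t = τ + s0`, `s0 = q'(τ) e ^ 2`,
`e = (3 p) ^ N`, `K' = K(sqrt (q (τ + s0)))`, a valuation of `K'` over `3`. -/
theorem quartic_ext {p : ℕ} [Fact p.Prime] (hp : p ≠ 2) (K : IntermediateField ℚ ℚ_[p])
    [FiniteDimensional ℚ K] (q : Polynomial ℚ_[p]) (hq : ∀ i, q.coeff i ∈ K)
    (hd : q.natDegree ≤ 4) (τ : ℚ_[p]) (hτ : τ ∈ K) (h0 : q.eval τ = 0)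
    (h1 : q.derivative.eval τ ≠ 0) :
    ∃ K' : IntermediateField ℚ ℚ_[p], FiniteDimensional ℚ K' ∧ K ≤ K' ∧
      {t : ℚ_[p] | t ∈ (K' : Set ℚ_[p]) ∧ ∃ w ∈ (K' : Set ℚ_[p]), w ≠ 0 ∧ w ^ 2 = q.eval t}.Infinite := by
  sorry

/-- From `nodes` over the field `K` and `quartic_ext`. -/
theorem exists_crv {p : ℕ} [Fact p.Prime] (hp : p ≠ 2) {k m : ℕ} {a : Fin (k + 1) → Fin (m + 1)}
    (c : Ix a → ℚ_[p]) (s : Sel4 k m) (x : Un4 k m → ℚ_[p]) (h : Nod c s x)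
    (K : IntermediateField ℚ ℚ_[p]) [FiniteDimensional ℚ K] (hc : ∀ e, c e ∈ K)
    (hx : ∀ i, x i ∈ K) :
    ∃ K' : IntermediateField ℚ ℚ_[p], FiniteDimensional ℚ K' ∧ K ≤ K' ∧
      Crv (K' : Set ℚ_[p]) c s x := by sorry

/-- The conditions on the line, over the field. -/
theorem nod_of_cfg {p : ℕ} [Fact p.Prime] {k m : ℕ} {a : Fin (k + 1) → Fin (m + 1)}
    (c : Ix a → ℤ_[p]) (s : Sel4 k m) (x : Un4 k m → ℤ_[p]) (h : Cfg4 c s x) :
    Nod (fun e => (c e : ℚ_[p])) s fun i => (x i : ℚ_[p]) := by sorry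

/-! ## E4: the points of the curve are in the closure (helper64) -/

theorem z_curve {k m : ℕ} {a : Fin (k + 1) → Fin (m + 1)} {E : Type*} [Field E] [CharZero E]
    (K : Subfield E) (c : Ix a → E) (s : Sel4 k m) (x : Un4 k m → E) (hc : ∀ e, c e ∈ K)
    (hx : ∀ i, x i ∈ K) (h : Crv (K : Set E) c s x) (t z : E) (hF : Fh c (pl s x t) z = 0)
    (hA : Ah c (pl s x t) ≠ 0) (hD : (Mx c (pl s x t)).det ≠ 0)
    (ht : ∀ i : Fin m, t ≠ x (.t i.succ)) :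
    Xz c (pl s x t) z ∈ Zc (K : Set E) c := by sorry

/-! ## REF4 (helper94), MEMS4 (helper64) -/

theorem exists_ref4 {p : ℕ} [Fact p.Prime] (hp : p ≠ 2) {k m : ℕ} {a : Fin (k + 1) → Fin (m + 1)}
    (c : Ix a → ℤ_[p]) (s : Sel4 k m) (x : Un4 k m → ℤ_[p]) (h : Cfg4 c s x)
    (L : LocM p (k * (m + 1)) (Fin k)) (hL : IsLoc c L) :
    ∃ R : RefM L (Lt k m), IsRef4 s x R := by
  sorry

/-- The points of the closure `Zc`. The first graph is given by the curve over the line `M`. -/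
theorem exists_mems4 {p : ℕ} [Fact p.Prime] (hp : p ≠ 2) {k m : ℕ} {a : Fin (k + 1) → Fin (m + 1)}
    (c : Ix a → ℤ_[p]) (s : Sel4 k m) (x : Un4 k m → ℤ_[p]) (h : Cfg4 c s x)
    (L : LocM p (k * (m + 1)) (Fin k)) (hL : IsLoc c L) (R : RefM L (Lt k m)) (hR : IsRef4 s x R)
    (K : Subfield ℚ_[p]) (hc : ∀ e, (c e : ℚ_[p]) ∈ K) (hx : ∀ i, (x i : ℚ_[p]) ∈ K)
    (hcr : Crv (K : Set ℚ_[p]) (fun e => (c e : ℚ_[p])) s fun i => (x i : ℚ_[p])) :
    ∃ M : MemsM L R,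
      (∀ N x z, M.Mem N x z ↔
        cq (Xz c (ct (tr x)) z) ∈ Zc (K : Set ℚ_[p]) fun e => (c e : ℚ_[p])) ∧
      (∀ N x z, M.Mem' N x z ↔
        cq (Xz c (ct (tr x)) z) ∈ Zc (K : Set ℚ_[p]) fun e => (c e : ℚ_[p])) ∧
      ∃ x0, StM M none (some s.j) 2 0 x0 := by sorry

/-! ## UN4: units in the ball -/

section un

variable {p : ℕ} [Fact p.Prime] {k m : ℕ} {a : Fin (k + 1) → Fin (m + 1)} (c : Ix a → ℤ_[p])
  (s : Sel4 k m) (x : Un4 k m → ℤ_[p]) (h : Cfg4 c s x)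

include h

theorem detM_unit4 (v : Fin k × Fin (m + 1) → ℤ_[p])
    (hv : ∀ q, ‖v q - x (.u q)‖ ≤ (p : ℝ) ^ (-2 : ℤ)) : IsUnit (Mx c (ct v)).det := by sorry

/-- The directions at points in the ball are a basis. -/
theorem span_dir4 (v : Fin k × Fin (m + 1) → ℤ_[p])
    (hv : ∀ q, ‖v q - x (.u q)‖ ≤ (p : ℝ) ^ (-2 : ℤ)) (ζ : Fin k × Fin (m + 1) → ℤ_[p])
    (hζ : ∀ q, ‖ζ q - x (.z q)‖ ≤ (p : ℝ) ^ (-2 : ℤ)) :
    Submodule.span ℚ_[p] (Set.range fun q : Fin k × Fin (m + 1) =>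
      (Pool.Agent.Helper24.HN.cst (em q.1 (vh c q.1.succ (Xz c (ct v) (ζ q)))) :
        Fin (k * (m + 1)) → ℚ_[p])) = ⊤ := by sorry

end un

/-! ## FIN4: the result of the dynamics (copy of `Helper66.HK.nopair_p_of` and `nopair_p`) -/

theorem nopair_p4 {p : ℕ} [Fact p.Prime] (hp : p ≠ 2) {k m : ℕ} (hm : 2 ≤ m)
    {a : Fin (k + 1) → Fin (m + 1)} (c : Ix a → ℤ_[p]) (s : Sel4 k m) (x : Un4 k m → ℤ_[p])
    (h : Cfg4 c s x) (K : Subfield ℚ_[p]) (cK : Ix a → K)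
    (hc : ∀ e, ((cK e : K) : ℚ_[p]) = (c e : ℚ_[p])) (hx : ∀ i, (x i : ℚ_[p]) ∈ K)
    (hcr : Crv (K : Set ℚ_[p]) (fun e => (c e : ℚ_[p])) s fun i => (x i : ℚ_[p])) :
    NoPair cK := by sorry

/-! ## EXIST4: configurations (helper76) -/

/-- From an example over `ℚ` (copy of `Helper76.HK.exists_cfg_of`). -/
theorem exc_of {k m : ℕ} {a : Fin (k + 1) → Fin (m + 1)} (s : Sel4 k m) (c0 : Ix a → ℚ)
    (x0 : Un4 k m → ℚ) (h1 : ∀ i, Eqn4 c0 s x0 i = 0) (h2 : Pp4 c0 s x0 ≠ 0)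
    (h3 : (Matrix.of fun i j => MvPolynomial.eval x0
      (MvPolynomial.pderiv j (Gs4 c0 s i))).det ≠ 0) : ExC a := by sorry

/-- Type 1. -/
theorem exc1 : ExC (![0, 0] : Fin (1 + 1) → Fin (3 + 1)) := by sorry

/-- Type 2. -/
theorem exc2 : ExC (![0, 1] : Fin (1 + 1) → Fin (3 + 1)) := by sorry

/-! ## PADIC4: (helper45) -/

theorem exists_padic4 {k m : ℕ} {a : Fin (k + 1) → Fin (m + 1)} (s : Sel4 k m) {L : Type} [Field L]
    [NumberField L] (c : Ix a → L) (x : Un4 k m → L) (hE : ∀ i, Eqn4 c s x i = 0)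
    (hP : Pp4 c s x ≠ 0)
    (hJ : (Matrix.of fun i j => MvPolynomial.eval x
      (MvPolynomial.pderiv j (Gs4 c s i))).det ≠ 0) :
    ∃ (p : ℕ) (_ : Fact p.Prime) (φ : L →+* ℚ_[p]) (c' : Ix a → ℤ_[p]) (x' : Un4 k m → ℤ_[p])
      (K : IntermediateField ℚ ℚ_[p]), p ≠ 2 ∧ FiniteDimensional ℚ K ∧ (∀ y, φ y ∈ K) ∧
      (∀ i, (x' i : ℚ_[p]) ∈ K) ∧ (∀ e, (c' e : ℚ_[p]) = φ (c e)) ∧ Cfg4 c' s x' := by sorry

/-! ## Assembly (helper28) -/

/-- From `exists_padic4`, `nod_of_cfg`, `exists_crv`, `nopair_p4`. -/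
theorem np_of_exc {k m : ℕ} (hm : 2 ≤ m) {a : Fin (k + 1) → Fin (m + 1)} (h : ExC a) : NP a := by
  sorry

/-- PERM: permutation of the forms. -/
theorem np_perm {k m : ℕ} {a : Fin (k + 1) → Fin (m + 1)} (σ : Equiv.Perm (Fin (m + 1)))
    (h : NP fun j => σ (a j)) : NP a := by sorry

/-- The result. -/
theorem nopair4 (a : Fin (1 + 1) → Fin (3 + 1)) : NP a := by sorry

end Pieces

end Pool.Agent.Helper16.N4
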